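import Pool.Agent.H81.D3.Targets

set_option autoImplicit false

namespace Pool.Agent.H94.D3

open Pool.Agent.H81.D3

theorem pf_GSE : T_GSE := by
  intro L H H' k K w q n e hL hH hH' hk hK hw hq hn hkK h2 h7 hE he
  have hL0 : 0 < L := by linarith
  have hk0 : 0 < k := by linarith
  have hK0 : 0 < K := by linarith
  have hw0 : 0 < w := by linarith
  have hwK : 0 < w * K := mul_pos hw0 hK0
  have hn0 : 0 < n := by
    rcases hn.eq_or_lt with h | h
    · exfalso
      rw [← h] at h2
      have : 0 < q * H ^ 2 := by positivity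
      simp at h2
      linarith
    · exact h
  have he0 : 0 < e := by
    have : 0 < n * (w * K) ^ 4 * (H' ^ (10 / 3 : ℝ) * (w * K) ^ (2 / 3 : ℝ)) := by positivity
    have h3 : 0 < L * e := lt_of_lt_of_le this hE
    exact (mul_pos_iff_of_pos_left hL0).1 h3
  have lwK : Real.log (w * K) = Real.log w + Real.log K :=
    Real.log_mul hw0.ne' hK0.ne'
  have e1 : Real.log k ≤ Real.log L + Real.log K := by
    rw [← Real.log_mul hL0.ne' hK0.ne']
    exact Real.log_le_log hk0 hkK
  have e2 := Real.log_le_log (by positivity) h2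
  have e3 := Real.log_le_log (by positivity) h7
  have e4 := Real.log_le_log (by positivity) hE
  have e5 := Real.log_le_log he0 he
  have hp1 : 0 < H ^ 2 := by positivity
  have hp2 : 0 < H' ^ 2 := by positivity
  have hp3 : 0 < (w * K) ^ 4 := by positivity
  have hp4 : 0 < H ^ (7 / 2 : ℝ) := by positivity
  have hp5 : 0 < k ^ (3 / 4 : ℝ) := by positivity
  have hp6 : 0 < H' ^ (7 / 2 : ℝ) := by positivity
  have hp7 : 0 < H' ^ (10 / 3 : ℝ) := by positivity
  have hp8 : 0 < (w * K) ^ (2 / 3 : ℝ) := by positivity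
  have hp9 : 0 < H ^ (10 / 3 : ℝ) := by positivity
  have hp10 : 0 < w ^ (2 / 3 : ℝ) := by positivity
  have hp11 : 0 < L ^ 150 := by positivity
  rw [Real.log_mul hq.ne' hp1.ne', Real.log_mul hL0.ne' (by positivity),
    Real.log_mul hp2.ne' (by positivity), Real.log_mul hn0.ne' hp3.ne', Real.log_pow,
    Real.log_pow, Real.log_pow, lwK] at e2
  rw [Real.log_mul hq.ne' hp4.ne', Real.log_mul hL0.ne' (by positivity),
    Real.log_mul hp5.ne' (by positivity), Real.log_mul hp6.ne' (by positivity),
    Real.log_mul hn0.ne' hp3.ne', Real.log_rpow hH, Real.log_rpow hk0, Real.log_rpow hH',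
    Real.log_pow, lwK] at e3
  rw [Real.log_mul (by positivity) (by positivity), Real.log_mul hn0.ne' hp3.ne', Real.log_pow,
    Real.log_mul hp7.ne' hp8.ne', Real.log_rpow hH', Real.log_rpow hwK,
    Real.log_mul hL0.ne' he0.ne', lwK] at e4
  rw [Real.log_mul hL0.ne' (by positivity), Real.log_mul (by positivity) hp10.ne',
    Real.log_mul hq.ne' hp9.ne', Real.log_rpow hH, Real.log_rpow hw0] at e5
  have f1 : 0 ≤ Real.log L := Real.log_nonneg hL
  have f2 : 0 ≤ Real.log K := Real.log_nonneg hK
  have f3 : 0 ≤ Real.log k := Real.log_nonneg hk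
  push_cast at e2 e3 e4 e5
  have s1 : (7 / 4 : ℝ) * (2 * Real.log H - Real.log k - 2 * Real.log H') ≤ Real.log L +
      (Real.log n + 4 * (Real.log w + Real.log K) - Real.log k - Real.log q) := by linarith
  have s2 : (Real.log n + 4 * (Real.log w + Real.log K) - Real.log k - Real.log q) ≤
      2 * Real.log L + (5 / 3 : ℝ) * (2 * Real.log H - Real.log k - 2 * Real.log H') +
      (2 / 3 : ℝ) * (Real.log k - Real.log K) := by linarith
  have s3 : (2 * Real.log H - Real.log k - 2 * Real.log H') ≤ Real.log L +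
      (Real.log n + 4 * (Real.log w + Real.log K) - Real.log k - Real.log q) := by linarith
  have s4 : (2 * Real.log H - Real.log k - 2 * Real.log H') ≤ 44 * Real.log L := by linarith
  have s5 : -(11 / 2) * Real.log L ≤ (2 * Real.log H - Real.log k - 2 * Real.log H') := by linarith
  refine ⟨(Real.log_le_log_iff he0 (by positivity)).1 ?_,
    (Real.log_le_log_iff (by positivity) (by positivity)).1 ?_,
    (Real.log_le_log_iff (by positivity) (by positivity)).1 ?_⟩
  · rw [Real.log_mul hp11.ne' (by positivity), Real.log_mul (by positivity) hp8.ne',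
      Real.log_mul (by positivity) hp7.ne', Real.log_mul hk0.ne' hq.ne', Real.log_pow,
      Real.log_rpow hH', Real.log_rpow hwK, lwK]
    push_cast
    linarith
  · rw [Real.log_mul hp11.ne' (by positivity), Real.log_mul hp1.ne' hw0.ne',
      Real.log_mul hp2.ne' hwK.ne', Real.log_pow, Real.log_pow, Real.log_pow, lwK]
    push_cast
    linarith
  · rw [Real.log_mul hp11.ne' (by positivity), Real.log_mul hp1.ne' hw0.ne',
      Real.log_mul hp2.ne' hwK.ne', Real.log_pow, Real.log_pow, Real.log_pow, lwK]
    push_cast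
    linarith

end Pool.Agent.H94.D3
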