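import Pool.Agent.H81.D3.Targets

set_option autoImplicit false

namespace Pool.Agent.H94.D3

open MeasureTheory Set
open Pool.Agent.H83.G
open Pool.Agent.H81.D3
open Pool.Agent.H82.G4 (aw uk)
open Pool.Agent.H22.G4 (nv)
open scoped ENNReal NNReal RealInnerProductSpace

theorem Cz_smul (t : ℝ) (ht : t ≠ 0) (V : Z 2) : Cz (t • V) = Pool.Agent.H82.LB.CirZ V := by
  ext η
  show ph (nv η) (t • V) = 0 ↔ V.1 + ⟪V.2.1, η⟫ + V.2.2 * ‖η‖ ^ 2 = 0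
  have h : ph (nv η) (t • V) = t * (V.1 + ⟪V.2.1, η⟫ + V.2.2 * ‖η‖ ^ 2) := by
    unfold ph nv
    simp only [Prod.smul_fst, Prod.smul_snd, smul_eq_mul, real_inner_smul_right]
    rw [real_inner_comm]
    ring
  rw [h, mul_eq_zero]
  constructor
  · rintro (h | h)
    · exact absurd h ht
    · exact h
  · intro h
    exact Or.inr h

theorem nar_of (β : E 2 → ℂ) (N : ℕ) (K H : ℝ) (n : ℕ) (G : Z 2 → ℂ) (z : Z 2) (hK : 0 < K)
    (h : Pool.Agent.H82.LB.Nar β N K n H G z) :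
    ∃ V : Fin n → Z 2, Nar β N K (K ^ (-100 : ℝ) * H) n G z V := by
  obtain ⟨V, hV, h⟩ := h
  refine ⟨fun j => ‖V j‖⁻¹ • V j, fun j => ?_, fun k hk hle => ?_⟩
  · rw [norm_smul, norm_inv, norm_norm]
    exact inv_mul_cancel₀ (norm_ne_zero_iff.2 (hV j))
  · have e : (K ^ (-100 : ℝ) : ℝ) = K ^ (-100 : ℤ) := by
      have := Real.rpow_intCast K (-100)
      rw [← this]
      norm_num
    rw [e] at hle
    obtain ⟨j, η, hη, hd⟩ := h k hk hle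
    refine ⟨j, η, ?_, hd⟩
    rw [Cz_smul _ (inv_ne_zero (norm_ne_zero_iff.2 (hV j)))]
    exact hη

theorem pf_LNC : T_LNC := by
  rintro ⟨cb₀, C₁, L₀, hcb, -, hC₁, hL⟩
  refine ⟨cb₀, C₁, max L₀ 10, hcb, hC₁, le_max_right _ _, fun L β hLL hβ ε hε => ?_⟩
  obtain ⟨δ₁, h1, h2, N₀, hN⟩ := hL L β (le_trans (le_max_left _ _) hLL) hβ ε hε
  refine ⟨δ₁, h1, h2, N₀, fun N hNN => ?_⟩
  obtain ⟨C, hC, hmain⟩ := hN N hNN
  refine ⟨max (max C C₁) 1, le_max_right _ _, ?_⟩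
  intro R Λ K A H n G X hR hK hΛ hn hA hH hAR hCls hSep hX
  have hCK : C₁ ≤ K := le_trans (le_trans (le_max_right _ _) (le_max_left _ _)) hK
  have hK1 : 1 ≤ K := le_trans (le_max_right _ _) hK
  have hK0 : 0 < K := by linarith
  have hmm := hmain R Λ K A H n G X hR hCK hΛ hn hA hH hAR hCls hSep (fun z hz hnar => by
    obtain ⟨V, hV⟩ := nar_of β N K H n G z hK0 hnar
    exact hX z hz V hV)
  refine hmm.trans ?_
  have hΛ0 : 0 < Λ := lt_of_lt_of_le (Real.rpow_pos_of_pos hK0 _) hΛ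
  have hi : 0 ≤ ∫ ζ, ‖G ζ‖ ^ 2 := integral_nonneg fun ζ => by positivity
  have hR0 : 0 < R := by linarith
  have h0 : 0 ≤ R ^ ε * Λ ^ (-cb₀) * En43 A R G := by
    unfold En43
    positivity
  calc C * R ^ ε * Λ ^ (-cb₀) * A ^ (4 / 3 : ℝ) * R ^ (1 / 3 : ℝ) * ∫ ζ, ‖G ζ‖ ^ 2
      = C * (R ^ ε * Λ ^ (-cb₀) * En43 A R G) := by unfold En43; ring
    _ ≤ max (max C C₁) 1 * (R ^ ε * Λ ^ (-cb₀) * En43 A R G) :=
        mul_le_mul_of_nonneg_right (le_trans (le_max_left _ _) (le_max_left _ _)) h0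
    _ = _ := by ring

end Pool.Agent.H94.D3
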