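import Pool.Agent.H81.D3.Targets

set_option autoImplicit false

namespace Pool.Agent.H94.D3

open MeasureTheory Set
open Pool.Agent.H83.G
open Pool.Agent.H81.D3
open Pool.Agent.H82.G4 (aw uk)
open Pool.Agent.H22.G4 (nv)
open scoped ENNReal NNReal RealInnerProductSpace

theorem par_mono (L N₁ : ℕ) (β : E 2 → ℂ) (C₀ C₀' C C' δ M cb₀ C₁ ε δ₁ Cb R A D H : ℝ)
    (w K n : ℕ) (hC₀ : C₀ ≤ C₀') (hC1 : 1 ≤ C) (hC : C ≤ C') (hδ : 0 < δ) (hD : 1 ≤ D)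
    (hH : 0 < H) (hK : 1 ≤ K)
    (h : Par L N₁ β C₀' C' δ M cb₀ C₁ ε δ₁ Cb R A D H w K n) :
    Par L N₁ β C₀ C δ M cb₀ C₁ ε δ₁ Cb R A D H w K n := by
  have hK1 : (1 : ℝ) ≤ K := by exact_mod_cast hK
  have hR0 : 0 < R := by linarith [h.R1]
  have hA := h.A0
  have hCb := h.Cb1
  have hn := h.n1
  have hw : (0 : ℝ) ≤ w := Nat.cast_nonneg _
  have hC'0 : 0 ≤ C' := by linarith
  have hCb0 : 0 ≤ Cb := by linarith
  have hCC : 0 ≤ C' * Cb := mul_nonneg hC'0 hCb0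
  have hRe : 0 ≤ R ^ ε := Real.rpow_nonneg hR0.le _
  have hCR : 0 ≤ C' * Cb * R ^ ε := mul_nonneg hCC hRe
  refine ⟨h.hL, h.hE, h.cb, h.C1, h.e0, h.d1, h.Cb1, h.R1, h.A0, h.n1, hC.trans h.KC, h.KCb,
    h.wK, h.up, ?_, ?_, ?_, h.nd⟩
  · refine le_trans ?_ h.lo
    gcongr
  · refine le_trans ?_ h.br
    gcongr
  · refine le_trans ?_ h.Dl
    gcongr

theorem pf_TST (hGST : T_GST) (hCMP : T_CMP) (hMON : T_MON) : T_TST := by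
  obtain ⟨C₀, hC₀, hG⟩ := hGST
  obtain ⟨Cc, hCc, hc1, hc2, -, -⟩ := hCMP
  obtain ⟨hm1, -, -, -⟩ := hMON
  refine ⟨C₀ + 1, by linarith, ?_⟩
  intro L N₁ β δ M hL hβ hδ hδ' hM
  obtain ⟨C, hC, hG⟩ := hG L N₁ β δ M hL hβ hδ hδ' hM
  refine ⟨max C 2, le_trans hC (le_max_left _ _), ?_⟩
  intro cb₀ C₁ ε δ₁ Cb R A H₀ D H G X w K K₁ n n' P Q hPar hH₀ hCls hSep hEn hSt
  have hD := hSt.D1
  have hH := hSt.H0
  have hKδ : (2 : ℝ) ≤ (K : ℝ) ^ δ := (le_max_right _ _).trans hPar.KC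
  have hK2 : 2 ≤ K := by
    by_contra hlt
    have hK1 : K ≤ 1 := by omega
    have h1 : (K : ℝ) ^ δ ≤ 1 := Real.rpow_le_one (Nat.cast_nonneg _) (by exact_mod_cast hK1) hδ.le
    linarith
  have hPar' := par_mono L N₁ β C₀ (C₀ + 1) C (max C 2) δ M cb₀ C₁ ε δ₁ Cb R A D H w K n
    (by linarith) hC (le_max_left _ _) hδ hD hH (by omega) hPar
  obtain ⟨H', P', Q', V, hSt', hV, hQ', hP', hdeg⟩ := hG cb₀ C₁ ε δ₁ Cb R A H₀ D H G X w K n P Q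
    hPar' hH₀ hCls hSep hEn hSt.toSt
  have hw1 : 1 ≤ w := hSt.w1
  have hK₁ : 1 ≤ K₁ := hSt.K1
  have hDD : D ^ C₀ ≤ D ^ (C₀ + 1) := Real.rpow_le_rpow_of_exponent_le hD (by linarith)
  obtain ⟨hSt2, -⟩ := hm1 β G (En43 A R G) H₀ (D ^ C₀) (D ^ (C₀ + 1)) X (w * K) H' P' Q' hEn hDD hSt'
  have hwR : (0 : ℝ) < w := by exact_mod_cast hw1
  have hKR : (2 : ℝ) ≤ K := by exact_mod_cast hK2
  have hK₁R : (0 : ℝ) < K₁ := by exact_mod_cast hK₁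
  refine ⟨H', P', Q', { hSt2 with K1 := hK₁, Kw := ?_, tgd := ?_, tdeg := ?_, top := ?_ }⟩
  · calc K₁ ≤ w := hSt.Kw
      _ ≤ w * K := Nat.le_mul_of_pos_right _ (by omega)
  · intro p' hp'
    obtain ⟨p, hp, hpp, l, hl, hk⟩ := hP' p' hp'
    have h1 := (hc1 w K p.2.1 l 0 hw1 (by omega)).2
    have h2 := (hc2 K l 0 0 (by omega) hl).2.2.2.2
    have h3 := hSt.tgd p hp
    rw [hk, h1, ← hpp]
    have h4 : ctr (w : ℝ)⁻¹ p.2.1 + (w : ℝ)⁻¹ • ctr (K : ℝ)⁻¹ l - ctr (K₁ : ℝ)⁻¹ p.1 =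
        (ctr (w : ℝ)⁻¹ p.2.1 - ctr (K₁ : ℝ)⁻¹ p.1) + (w : ℝ)⁻¹ • ctr (K : ℝ)⁻¹ l := by abel
    rw [h4]
    refine (norm_add_le _ _).trans ?_
    have h5 : ‖(w : ℝ)⁻¹ • ctr (K : ℝ)⁻¹ l‖ ≤ 5 / w := by
      rw [norm_smul, norm_inv, Real.norm_eq_abs, abs_of_pos hwR, div_eq_mul_inv, mul_comm]
      gcongr
    have h6 : 100 / ((w * K : ℕ) : ℝ) ≤ 50 / w := by
      push_cast
      rw [div_le_div_iff₀ (by positivity) hwR]
      nlinarith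
    have h7 : (100 : ℝ) / w = 50 / w + 50 / w := by ring
    have h8 : (5 : ℝ) / w ≤ 50 / w := by gcongr; norm_num
    linarith
  · intro z t
    refine (hdeg z t).trans ?_
    have h1 := hSt.tdeg z t
    have h2 : D ^ (C₀ + 1) = D ^ C₀ * D := by
      rw [Real.rpow_add (by linarith), Real.rpow_one]
    calc D ^ C₀ * K * ((Qzt Q z t).card : ℝ) ≤ D ^ C₀ * K * (D * w / K₁) := by
          gcongr
      _ = D ^ (C₀ + 1) * ((w * K : ℕ) : ℝ) / K₁ := by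
          rw [h2]; push_cast; ring
  · intro z
    obtain ⟨V₀, hV₀, h⟩ := hSt.top z
    refine ⟨V₀, hV₀, fun q' hq' hz => ?_⟩
    obtain ⟨q, hq, h1, h2, -⟩ := hQ' q' hq'
    rw [← h2]
    exact h q hq (h1.trans hz)

end Pool.Agent.H94.D3
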